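import Mathlib

/-!
# Every binary word of length `n` has at least `c √n` non-equivalent abelian squares

Let `y 0 = -1`, let `y 1 < ... < y N` be the places of the letter `b`, and `y (N + 1) = n`. If no
abelian square has exactly `v` letters `b` in each half, then for every `c` the second difference
`y c - 2 y (c + v) + y (c + 2 v)` cannot change from negative to positive when `c` grows, because
the intervals of the possible sums of the two ends tile the integers up to single points. So it is
positive on the first half or negative on the second half of the word, and then the lengths of the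
blocks with `v` letters `b` are strictly monotone, which bounds their number by a multiple of `√n`.
-/

set_option autoImplicit false

namespace Pool.Agent.Results.MP_5d630e_co.SquareRoot

/-- Parikh vector of a binary word (`true` = a, `false` = b). -/
def parikh (u : List Bool) : ℕ × ℕ := (u.count true, u.count false)

/-- The Parikh vectors `P(u)` over all factors `uv` of `w` with `u, v` nonempty and
`P(u) = P(v)`: one for each class of equivalent abelian squares of `w`. -/
def sqClasses (w : List Bool) : Set (ℕ × ℕ) :=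
  {P | ∃ u v : List Bool, u ≠ [] ∧ v ≠ [] ∧ (u ++ v) <:+: w ∧ parikh u = P ∧ parikh v = P}

/-- `MNL(n)`: the least number of non-equivalent abelian squares in a binary word of length `n`. -/
noncomputable def MNL (n : ℕ) : ℕ :=
  sInf {k | ∃ w : List Bool, w.length = n ∧ (sqClasses w).ncard = k}

/-! ## Sequences of integers -/

theorem growth (f : ℕ → ℤ) (v : ℤ) (J : ℕ) (h0 : v ≤ f 1 - f 0)
    (h : ∀ i, i < J → 2 * f (i + 1) + 1 ≤ f (i + 2) + f i) :
    v + J ≤ f (J + 1) - f J ∧
      2 * ((J : ℤ) + 1) * v + J * (J + 1) ≤ 2 * (f (J + 1) - f 0) := by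
  induction J with
  | zero =>
    refine ⟨by simpa using h0, ?_⟩
    push_cast
    linarith
  | succ J ih =>
    obtain ⟨h1, h2⟩ := ih (fun i hi => h i (by omega))
    have h3 := h J (by omega)
    have h4 : v + ((J + 1 : ℕ) : ℤ) ≤ f (J + 1 + 1) - f (J + 1) := by
      push_cast
      have : f (J + 1 + 1) = f (J + 2) := rfl
      linarith
    refine ⟨h4, ?_⟩
    push_cast at h4 ⊢
    nlinarith

theorem mono_le {y : ℕ → ℤ} {N : ℕ} (hm : ∀ j, j ≤ N → y j < y (j + 1)) (a d : ℕ)
    (h : a + d ≤ N + 1) : y a + d ≤ y (a + d) := by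
  induction d with
  | zero => simp
  | succ d ih =>
    have h1 := ih (by omega)
    have h2 := hm (a + d) (by omega)
    have e : a + (d + 1) = a + d + 1 := by ring
    rw [e]
    push_cast
    linarith

theorem core {y : ℕ → ℤ} {N v : ℕ} (hv : 1 ≤ v) (hm : ∀ j, j ≤ N → y j < y (j + 1))
    (H : ∀ c, c + 2 * v ≤ N → ∀ q : ℤ, y (c + v) < q → q ≤ y (c + v + 1) →
      ¬ (y c + y (c + 2 * v) + 2 ≤ 2 * q ∧ 2 * q ≤ y (c + 1) + y (c + 2 * v + 1)))
    (J : ℕ) (hJ : 1 ≤ J) (hJN : 2 * J * v < N) :
    2 * ((J : ℤ) + 1) * v + J * (J + 1) ≤ 2 * (y (N + 1) - y 0) := by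
  have B : ∀ c, c + 1 + 2 * v ≤ N → y (c + 1) + y (c + 2 * v + 1) < 2 * y (c + v + 1) + 1 →
      y (c + 2) + y (c + 2 * v + 2) < 2 * y (c + v + 1) + 2 := by
    intro c hc h
    have h1 := H (c + 1) (by omega) (y (c + v + 1) + 1)
    have e1 : c + 1 + v = c + v + 1 := by ring
    have e2 : c + 1 + 2 * v = c + 2 * v + 1 := by ring
    have e3 : c + 1 + 1 = c + 2 := by ring
    have e4 : c + 2 * v + 1 + 1 = c + 2 * v + 2 := by ring
    rw [e1, e2, e3, e4] at h1
    have h2 := hm (c + v + 1) (by omega)
    have h3 := h1 (by linarith) (by linarith)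
    by_contra h4
    push Not at h4
    exact h3 ⟨by linarith, by linarith⟩
  have A : ∀ c, c + 1 + 2 * v ≤ N → y c + y (c + 2 * v) + 2 ≤ 2 * y (c + v + 1) →
      y (c + 2) + y (c + 2 * v + 2) < 2 * y (c + v + 1) + 2 := by
    intro c hc h
    have h1 := H c (by omega) (y (c + v + 1)) (hm (c + v) (by omega)) le_rfl
    refine B c hc ?_
    by_contra h4
    push Not at h4
    exact h1 ⟨h, by linarith⟩
  by_cases hall : ∀ i, i < J → 2 * y (i * v + v + 1) < y (i * v) + y (i * v + 2 * v) + 2
  · have h1 := growth (fun i => y (i * v)) v J (by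
      have := mono_le hm 0 v (by nlinarith)
      simp only [zero_add] at this
      simp only [one_mul, zero_mul]
      linarith) (by
      intro i hi
      have h2 := hall i hi
      have h3 : i * v + v ≤ N := by nlinarith
      have h4 := hm (i * v + v) h3
      have e1 : (i + 1) * v = i * v + v := by ring
      have e2 : (i + 2) * v = i * v + 2 * v := by ring
      simp only [e1, e2]
      linarith)
    have h2 := h1.2
    simp only [zero_mul] at h2
    have h3 : (J + 1) * v ≤ N := by nlinarith
    have h4 := mono_le hm ((J + 1) * v) (N + 1 - (J + 1) * v) (by omega)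
    have e : (J + 1) * v + (N + 1 - (J + 1) * v) = N + 1 := by omega
    rw [e] at h4
    have h5 : (0 : ℤ) ≤ ((N + 1 - (J + 1) * v : ℕ) : ℤ) := Int.natCast_nonneg _
    linarith
  · push Not at hall
    obtain ⟨i0, hi0, h0⟩ := hall
    -- from here on the second differences are negative
    have neg : ∀ d, i0 * v + 1 + d + 2 * v ≤ N →
        y (i0 * v + 1 + d + 1) + y (i0 * v + 1 + d + 2 * v + 1) <
          2 * y (i0 * v + 1 + d + v) + 2 := by
      intro d
      induction d with
      | zero =>
        intro hd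
        have h1 := A (i0 * v) (by omega) h0
        have e1 : i0 * v + 1 + 0 + 1 = i0 * v + 2 := by ring
        have e2 : i0 * v + 1 + 0 + 2 * v + 1 = i0 * v + 2 * v + 2 := by ring
        have e3 : i0 * v + 1 + 0 + v = i0 * v + v + 1 := by ring
        rw [e1, e2, e3]
        exact h1
      | succ d ih =>
        intro hd
        have h1 := ih (by omega)
        have h2 := hm (i0 * v + 1 + d + v) (by omega)
        have h3 := B (i0 * v + 1 + d) (by omega) (by linarith)
        have e1 : i0 * v + 1 + (d + 1) + 1 = i0 * v + 1 + d + 2 := by ring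
        have e2 : i0 * v + 1 + (d + 1) + 2 * v + 1 = i0 * v + 1 + d + 2 * v + 2 := by ring
        have e3 : i0 * v + 1 + (d + 1) + v = i0 * v + 1 + d + v + 1 := by ring
        rw [e1, e2, e3]
        exact h3
    have h1 := growth (fun i => - y (N + 1 - i * v)) v J (by
      have h2 : v ≤ N + 1 := by nlinarith
      have := mono_le hm (N + 1 - v) v (by omega)
      have e : N + 1 - v + v = N + 1 := by omega
      rw [e] at this
      simp only [one_mul, zero_mul, Nat.sub_zero]
      linarith) (by
      intro i hi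
      have hi1 : (i + 2) * v ≤ (J + 1) * v := Nat.mul_le_mul_right _ (by omega)
      have hi2 : i0 * v ≤ (J - 1) * v := Nat.mul_le_mul_right _ (by omega)
      have hi3 : (J - 1) * v + (J + 1) * v = 2 * J * v := by
        obtain ⟨J', rfl⟩ : ∃ J', J = J' + 1 := ⟨J - 1, by omega⟩
        simp only [Nat.add_sub_cancel]
        ring
      have hi4 : (i + 2) * v = i * v + 2 * v := by ring
      have hi5 : (i + 1) * v = i * v + v := by ring
      obtain ⟨d, hd⟩ : ∃ d, N = i0 * v + 1 + d + (i * v + 2 * v) := 
        ⟨N - (i0 * v + 1 + (i * v + 2 * v)), by omega⟩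
      have h2 := neg d (by omega)
      have h3 := hm (i0 * v + 1 + d + v) (by omega)
      simp only [hi4, hi5]
      have e1 : N + 1 - (i * v + 2 * v) = i0 * v + 1 + d + 1 := by omega
      have e2 : N + 1 - (i * v + v) = i0 * v + 1 + d + v + 1 := by omega
      have e3 : N + 1 - i * v = i0 * v + 1 + d + 2 * v + 1 := by omega
      rw [e1, e2, e3]
      linarith)
    have h2 := h1.2
    simp only [zero_mul, Nat.sub_zero] at h2
    have h3 : (J + 1) * v ≤ N := by nlinarith
    have h4 := mono_le hm 0 (N + 1 - (J + 1) * v) (by omega)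
    rw [zero_add] at h4
    have h5 : (0 : ℤ) ≤ ((N + 1 - (J + 1) * v : ℕ) : ℤ) := Int.natCast_nonneg _
    linarith

/-! ## The places of a letter -/

section

variable (w : List Bool) (b : Bool)

/-- the number of letters `b` among the first `i` letters -/
def pc (i : ℕ) : ℕ := (w.take i).count b

/-- the last `i` with at most `j` letters `b` before it -/
def zz (j : ℕ) : ℕ := Nat.findGreatest (fun i => pc w b i ≤ j) w.length

/-- the places of the letter `b`, with `-1` in front and the length of the word at the end -/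
def yy : ℕ → ℤ
  | 0 => -1
  | j + 1 => (zz w b j : ℤ)

theorem pc_zero : pc w b 0 = 0 := by simp [pc]

theorem pc_mono {i i' : ℕ} (h : i ≤ i') : pc w b i ≤ pc w b i' :=
  (List.take_sublist_take_left h).count_le b

theorem pc_add (i r : ℕ) : pc w b (i + r) = pc w b i + ((w.drop i).take r).count b := by
  unfold pc
  rw [List.take_add, List.count_append]

theorem pc_succ (i : ℕ) : pc w b (i + 1) ≤ pc w b i + 1 := by
  rw [pc_add]
  have h : ((w.drop i).take 1).count b ≤ ((w.drop i).take 1).length := List.count_le_length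
  have h2 : ((w.drop i).take 1).length ≤ 1 := by
    rw [List.length_take]
    omega
  omega

theorem pc_length : pc w b w.length = w.count b := by simp [pc]

theorem zz_le (j : ℕ) : zz w b j ≤ w.length := Nat.findGreatest_le _

theorem pc_zz_le (j : ℕ) : pc w b (zz w b j) ≤ j := by
  have h := Nat.findGreatest_spec (P := fun i => pc w b i ≤ j) (m := 0) (n := w.length)
    (Nat.zero_le _) (by
      show pc w b 0 ≤ j
      rw [pc_zero]
      exact Nat.zero_le j)
  exact h

theorem lt_pc {i j : ℕ} (hi : i ≤ w.length) (h : zz w b j < i) : j < pc w b i := by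
  have h1 := Nat.findGreatest_is_greatest (P := fun i => pc w b i ≤ j) (n := w.length) h hi
  exact not_le.mp h1

theorem pc_zz {j : ℕ} (hj : j ≤ w.count b) : pc w b (zz w b j) = j := by
  have h1 := pc_zz_le w b j
  have h2 := zz_le w b j
  rcases Nat.lt_or_ge (zz w b j) w.length with h3 | h3
  · have h4 := lt_pc w b (i := zz w b j + 1) (j := j) (by omega) (by omega)
    have h5 := pc_succ w b (zz w b j)
    omega
  · have h4 : zz w b j = w.length := le_antisymm h2 h3
    rw [h4, pc_length] at h1 ⊢
    omega

theorem zz_lt {j : ℕ} (hj : j + 1 ≤ w.count b) : zz w b j < zz w b (j + 1) := by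
  by_contra h
  push Not at h
  have h1 := pc_mono w b h
  rw [pc_zz w b hj, pc_zz w b (by omega)] at h1
  omega

theorem zz_count : zz w b (w.count b) = w.length := by
  by_contra h
  have h1 := zz_le w b (w.count b)
  have h2 := lt_pc w b (i := w.length) (j := w.count b) le_rfl (by omega)
  rw [pc_length] at h2
  omega

theorem yy_lt (j : ℕ) (hj : j ≤ w.count b) : yy w b j < yy w b (j + 1) := by
  cases j with
  | zero =>
    show (-1 : ℤ) < (zz w b 0 : ℤ)
    have := Int.natCast_nonneg (zz w b 0)
    linarith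
  | succ j =>
    show (zz w b j : ℤ) < (zz w b (j + 1) : ℤ)
    exact_mod_cast zz_lt w b hj

theorem yy_key {j : ℕ} (hj : j ≤ w.count b) {i : ℤ} (h1 : yy w b j < i)
    (h2 : i ≤ yy w b (j + 1)) : ∃ m : ℕ, (m : ℤ) = i ∧ m ≤ w.length ∧ pc w b m = j := by
  have h0 : 0 ≤ i := by
    cases j with
    | zero =>
      have : (-1 : ℤ) < i := h1
      linarith
    | succ j =>
      have h3 : (zz w b j : ℤ) < i := h1
      have := Int.natCast_nonneg (zz w b j)
      linarith
  obtain ⟨m, rfl⟩ := Int.eq_ofNat_of_zero_le h0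
  have h3 : m ≤ zz w b j := by
    have h4 : ((m : ℕ) : ℤ) ≤ (zz w b j : ℤ) := h2
    exact_mod_cast h4
  refine ⟨m, rfl, h3.trans (zz_le w b j), ?_⟩
  have h4 : pc w b m ≤ j := (pc_mono w b h3).trans (pc_zz_le w b j)
  cases j with
  | zero => omega
  | succ j =>
    have h5 : (zz w b j : ℤ) < ((m : ℕ) : ℤ) := h1
    have h6 : zz w b j < m := by exact_mod_cast h5
    have h7 := lt_pc w b (h3.trans (zz_le w b (j + 1))) h6
    omega

theorem tot (x : List Bool) : x.count true + x.count false = x.length := by
  induction x with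
  | nil => simp
  | cons b x ih => cases b <;> simp <;> omega

theorem parikh_eq {u v : List Bool} (h : u.length = v.length) (hb : u.count b = v.count b) :
    parikh u = parikh v := by
  have h1 := tot u
  have h2 := tot v
  unfold parikh
  rw [Prod.mk.injEq]
  cases b
  · exact ⟨by omega, hb⟩
  · exact ⟨hb, by omega⟩

/-- If no abelian square in `w` has exactly `v` letters `b` in each half, then the length of `w`
is at least quadratic in (the number of the letters `b`) `/ v`. -/
theorem block {v : ℕ} (hv : 1 ≤ v)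
    (hno : ∀ u u' : List Bool, u ≠ [] → u' ≠ [] → (u ++ u') <:+: w → parikh u = parikh u' →
      u.count b ≠ v)
    (J : ℕ) (hJ : 1 ≤ J) (hJN : 2 * J * v < w.count b) :
    2 * (J + 1) * v + J * (J + 1) ≤ 2 * (w.length + 1) := by
  have h := core (y := yy w b) hv (yy_lt w b) (by
    rintro c hc q hq1 hq2 ⟨hS, hE⟩
    have hlt1 := yy_lt w b c (by omega)
    have hlt2 := yy_lt w b (c + 2 * v) hc
    obtain ⟨p, hp⟩ : ∃ p : ℤ, p = min (yy w b (c + 1)) (2 * q - yy w b (c + 2 * v) - 1) := ⟨_, rfl⟩
    have hp1 : yy w b c < p := by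
      rw [hp]
      exact lt_min hlt1 (by linarith)
    have hp2 : p ≤ yy w b (c + 1) := hp.trans_le (min_le_left _ _)
    have hp3 : p ≤ 2 * q - yy w b (c + 2 * v) - 1 := hp.trans_le (min_le_right _ _)
    have hs1 : yy w b (c + 2 * v) < 2 * q - p := by linarith
    have hs2 : 2 * q - p ≤ yy w b (c + 2 * v + 1) := by
      rcases min_choice (yy w b (c + 1)) (2 * q - yy w b (c + 2 * v) - 1) with h3 | h3
      · rw [h3] at hp
        linarith
      · rw [h3] at hp
        linarith
    obtain ⟨p', hp4, hp5, hp6⟩ := yy_key w b (by omega) hp1 hp2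
    obtain ⟨q', hq4, hq5, hq6⟩ := yy_key w b (j := c + v) (by omega) hq1 hq2
    obtain ⟨s', hs4, hs5, hs6⟩ := yy_key w b hc hs1 hs2
    have hpq : p' < q' := by
      by_contra h3
      push Not at h3
      have := pc_mono w b h3
      omega
    have hsum : p' + s' = 2 * q' := by omega
    obtain ⟨r, hr⟩ : ∃ r, q' = p' + r := ⟨q' - p', by omega⟩
    have hr2 : s' = q' + r := by omega
    have hu : ((w.drop p').take r).count b = v := by
      have h3 := pc_add w b p' r
      rw [← hr] at h3
      omega
    have hu' : ((w.drop q').take r).count b = v := by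
      have h3 := pc_add w b q' r
      rw [← hr2] at h3
      omega
    have hl : ((w.drop p').take r).length = r := by
      rw [List.length_take, List.length_drop]
      omega
    have hl' : ((w.drop q').take r).length = r := by
      rw [List.length_take, List.length_drop]
      omega
    refine hno ((w.drop p').take r) ((w.drop q').take r) ?_ ?_ ?_ ?_ hu
    · intro h3
      rw [h3] at hl
      simp at hl
      omega
    · intro h3
      rw [h3] at hl'
      simp at hl'
      omega
    · have e : (w.drop p').take r ++ (w.drop q').take r = (w.drop p').take (r + r) := by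
        rw [hr, List.take_add, List.drop_drop]
      rw [e]
      exact (List.take_prefix _ _).isInfix.trans (List.drop_suffix _ _).isInfix
    · exact parikh_eq b (hl.trans hl'.symm) (hu.trans hu'.symm)) J hJ hJN
  have h1 : yy w b (w.count b + 1) = (w.length : ℤ) := by
    show (zz w b (w.count b) : ℤ) = _
    rw [zz_count]
  have h2 : yy w b 0 = -1 := rfl
  rw [h1, h2] at h
  have h3 : ((2 * (J + 1) * v + J * (J + 1) : ℕ) : ℤ) ≤ ((2 * (w.length + 1) : ℕ) : ℤ) := by
    push_cast
    linarith
  exact_mod_cast h3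

end

theorem numbers {n N v : ℕ} (hv : 1 ≤ v) (hN : n ≤ 2 * N)
    (h : ∀ J, 1 ≤ J → 2 * J * v < N → 2 * (J + 1) * v + J * (J + 1) ≤ 2 * (n + 1)) :
    n ≤ 24 * v ^ 2 + 4 * v := by
  by_contra hn
  push Not at hn
  obtain ⟨J, hJ⟩ : ∃ J, J = (N - 1) / (2 * v) := ⟨_, rfl⟩
  have h1 : 2 * v * J ≤ N - 1 := by
    rw [hJ]
    exact Nat.mul_div_le _ _
  have h2 : N - 1 < 2 * v * (J + 1) := by
    rw [hJ]
    exact Nat.lt_mul_div_succ _ (by omega)
  have hN1 : 12 * v ^ 2 + 2 * v < N := by omega
  have h3 : 6 * v + 1 ≤ J := by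
    by_contra h4
    push Not at h4
    have h5 : J + 1 ≤ 6 * v + 1 := by omega
    have h6 : 2 * v * (J + 1) ≤ 2 * v * (6 * v + 1) := Nat.mul_le_mul_left _ h5
    have h7 : 2 * v * (6 * v + 1) = 12 * v ^ 2 + 2 * v := by ring
    omega
  have h4 := h J (by omega) (by
    have e : 2 * J * v = 2 * v * J := by ring
    rw [e]
    omega)
  have h5 : N ≤ 2 * v * (J + 1) := by omega
  nlinarith

/-- some `v ∈ [1, k + 1]` is not a coordinate of one of the `k` classes -/
theorem exists_missing (S : Finset ℕ) : ∃ v, 1 ≤ v ∧ v ≤ S.card + 1 ∧ v ∉ S := by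
  by_contra h
  push Not at h
  have h1 : Finset.Icc 1 (S.card + 1) ⊆ S := by
    intro v hv
    rw [Finset.mem_Icc] at hv
    exact h v hv.1 hv.2
  have h2 := Finset.card_le_card h1
  rw [Nat.card_Icc] at h2
  omega

theorem finite_sq (w : List Bool) : (sqClasses w).Finite := by
  apply Set.Finite.subset ((Set.finite_Iic w.length).prod (Set.finite_Iic w.length))
  rintro P ⟨u, v, _, _, hi, rfl, _⟩
  have hl : u.length ≤ w.length := by
    have := hi.length_le
    rw [List.length_append] at this
    omega
  have h1 : u.count true ≤ u.length := List.count_le_length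
  have h2 : u.count false ≤ u.length := List.count_le_length
  exact ⟨le_trans h1 hl, le_trans h2 hl⟩

theorem word_bound (w : List Bool) :
    w.length ≤ 24 * ((sqClasses w).ncard + 1) ^ 2 + 4 * ((sqClasses w).ncard + 1) := by
  classical
  have hfin := finite_sq w
  obtain ⟨b, hb⟩ : ∃ b : Bool, w.length ≤ 2 * w.count b := by
    have h1 := tot w
    rcases le_total (w.count true) (w.count false) with h2 | h2
    · exact ⟨false, by omega⟩
    · exact ⟨true, by omega⟩
  obtain ⟨v, hv1, hv2, hv3⟩ := exists_missing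
    (hfin.toFinset.image fun P : ℕ × ℕ => if b then P.1 else P.2)
  have hcard : (hfin.toFinset.image fun P : ℕ × ℕ => if b then P.1 else P.2).card ≤
      (sqClasses w).ncard := by
    refine Finset.card_image_le.trans ?_
    rw [Set.ncard_eq_toFinset_card _ hfin]
  have h1 := numbers hv1 hb (fun J hJ hJN => block w b hv1 (by
    intro u u' hu hu' hi hP hc
    apply hv3
    rw [Finset.mem_image]
    refine ⟨parikh u, ?_, ?_⟩
    · rw [Set.Finite.mem_toFinset]
      exact ⟨u, u', hu, hu', hi, rfl, hP.symm⟩
    · rw [← hc]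
      cases b <;> simp [parikh]) J hJ hJN)
  have h2 : v ≤ (sqClasses w).ncard + 1 := hv2.trans (by omega)
  have h3 : v ^ 2 ≤ ((sqClasses w).ncard + 1) ^ 2 := Nat.pow_le_pow_left h2 2
  omega

theorem MNL_bound (n : ℕ) : n ≤ 24 * (MNL n + 1) ^ 2 + 4 * (MNL n + 1) := by
  have hne : {k | ∃ w : List Bool, w.length = n ∧ (sqClasses w).ncard = k}.Nonempty :=
    ⟨_, List.replicate n true, by simp, rfl⟩
  obtain ⟨w, hw, hk⟩ := Nat.sInf_mem hne
  have := word_bound w
  rw [hk, hw] at this
  exact this

/-- an abelian square with exactly `v` letters `b` in each half -/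
theorem exists_square (w : List Bool) (b : Bool) {v J : ℕ} (hv : 1 ≤ v) (hJ : 1 ≤ J)
    (hJN : 2 * J * v < w.count b)
    (h : 2 * (w.length + 1) < 2 * (J + 1) * v + J * (J + 1)) :
    ∃ x y : List Bool, x ≠ [] ∧ y ≠ [] ∧ (x ++ y) <:+: w ∧ parikh x = parikh y ∧
      x.count b = v := by
  by_contra hno
  have h1 := block w b hv (fun u u' hu hu' hi hP hc => hno ⟨u, u', hu, hu', hi, hP, hc⟩) J hJ hJN
  omega

/-- the same for the more frequent letter -/
theorem exists_square' (w : List Bool) (b : Bool) {v : ℕ} (hv : 1 ≤ v)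
    (hb : w.length ≤ 2 * w.count b) (h : 24 * v ^ 2 + 4 * v < w.length) :
    ∃ x y : List Bool, x ≠ [] ∧ y ≠ [] ∧ (x ++ y) <:+: w ∧ parikh x = parikh y ∧
      x.count b = v := by
  by_contra hno
  have h1 := numbers hv hb (fun J hJ hJN => block w b hv
    (fun u u' hu hu' hi hP hc => hno ⟨u, u', hu, hu', hi, hP, hc⟩) J hJ hJN)
  omega

theorem MNL_real (n : ℕ) : (Real.sqrt n - 6) / 5 ≤ (MNL n : ℝ) := by
  have h := MNL_bound n
  have h1 : (n : ℝ) ≤ 24 * ((MNL n : ℝ) + 1) ^ 2 + 4 * ((MNL n : ℝ) + 1) := by exact_mod_cast h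
  have h2 : (0 : ℝ) ≤ (MNL n : ℝ) := Nat.cast_nonneg _
  have h3 : Real.sqrt n ≤ 5 * ((MNL n : ℝ) + 1) + 1 := by
    refine Real.sqrt_le_iff.mpr ⟨by linarith, ?_⟩
    nlinarith
  linarith

/-- **`MNL(n)` is at least of the order `√n`.**

(1) Every binary word of length `n` has at least `(√n - 6) / 5` non-equivalent abelian squares
(a stronger bound in integers is `n ≤ 24 (MNL(n) + 1)² + 4 (MNL(n) + 1)`).

(2) They can be prescribed: if at least half of the letters of `w` are equal to `b`, then for every
`v ≥ 1` with `24 v² + 4 v < n` there is an abelian square in `w` which has exactly `v` letters `b`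
in each half.

(3) For an arbitrary letter `b` which occurs `N` times: there is an abelian square with exactly `v`
letters `b` in each half if `n + 1 < (J + 1) v + J (J + 1) / 2` for some `1 ≤ J < N / (2 v)`. -/
theorem result :
    (∀ n : ℕ, (Real.sqrt n - 6) / 5 ≤ (MNL n : ℝ) ∧
      n ≤ 24 * (MNL n + 1) ^ 2 + 4 * (MNL n + 1)) ∧
    (∀ (w : List Bool) (b : Bool) (v : ℕ), 1 ≤ v → w.length ≤ 2 * w.count b →
      24 * v ^ 2 + 4 * v < w.length →
      ∃ x y : List Bool, x ≠ [] ∧ y ≠ [] ∧ (x ++ y) <:+: w ∧ parikh x = parikh y ∧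
        x.count b = v) ∧
    (∀ (w : List Bool) (b : Bool) (v J : ℕ), 1 ≤ v → 1 ≤ J → 2 * J * v < w.count b →
      2 * (w.length + 1) < 2 * (J + 1) * v + J * (J + 1) →
      ∃ x y : List Bool, x ≠ [] ∧ y ≠ [] ∧ (x ++ y) <:+: w ∧ parikh x = parikh y ∧
        x.count b = v) :=
  ⟨fun n => ⟨MNL_real n, MNL_bound n⟩, fun w b _ hv hb h => exists_square' w b hv hb h,
    fun w b _ _ hv hJ hJN h => exists_square w b hv hJ hJN h⟩

end Pool.Agent.Results.MP_5d630e_co.SquareRoot
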